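import Pool.Agent.Helper51.SZ.ODD

set_option autoImplicit false

namespace Pool.Helper99.SZ

open NumberField

section even

variable {K : Type} [Field K] [NumberField K] {L : Type} [Field L] [NumberField L]

/-- the symmetric functions of the two other conjugates lie in `K` -/
lemma even_sym (hCU : ST_CU1) {β : K} {a b c : ℤ} {κ : 𝓞 K} (h : CF K β a b c κ)
    (e : Fin 3 → (K →+* L)) (he : Function.Injective e) (u : K) :
    ∃ A B : K, e 0 A = e 1 u + e 2 u ∧ e 0 B = e 1 u * e 2 u := by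
  obtain ⟨-, -, -, -, -, hemb⟩ := hCU.2 K β a b c κ h
  obtain ⟨hne, hsum, hsq, -⟩ := hemb L e he
  have h1 := hsq 0 1 2 (by decide) (by decide) (by decide)
  rw [h.kap] at h1
  simp only [map_sub, map_mul, map_pow, map_intCast, map_ofNat] at h1
  set t0 := e 0 β with ht0
  set t1 := e 1 β with ht1
  set t2 := e 2 β with ht2
  have hs : t1 + t2 = -a - t0 := by rw [← hsum]; ring
  have hp : t1 * t2 = t0 ^ 2 + a * t0 + b := by
    have h2 : (4 : L) * (t1 * t2) = (t1 + t2) ^ 2 - (t1 - t2) ^ 2 := by ring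
    rw [h1, hs] at h2
    have h4 : (4 : L) ≠ 0 := by norm_num
    apply mul_left_cancel₀ h4
    rw [h2]
    ring
  obtain ⟨x, y, z, hu⟩ := odd_basis h u
  set S : K := -a - β with hS
  set R : K := β ^ 2 + a * β + b with hR
  have hS0 : e 0 S = t1 + t2 := by
    rw [hs, hS]
    simp only [map_sub, map_neg, map_intCast]
    rfl
  have hR0 : e 0 R = t1 * t2 := by
    rw [hp, hR]
    simp only [map_add, map_mul, map_pow, map_intCast]
    rfl
  refine ⟨2 * (x : K) + y * S + z * (S ^ 2 - 2 * R),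
    (x : K) ^ 2 + x * y * S + x * z * (S ^ 2 - 2 * R) + y ^ 2 * R + y * z * R * S +
      z ^ 2 * R ^ 2, ?_, ?_⟩
  · rw [hu]
    simp only [map_add, map_sub, map_mul, map_pow, odd_Q, map_ofNat, hS0, hR0]
    rw [← ht1, ← ht2]
    ring
  · rw [hu]
    simp only [map_add, map_sub, map_mul, map_pow, odd_Q, map_ofNat, hS0, hR0]
    rw [← ht1, ← ht2]
    ring

/-- residues -/
lemma even_res {P : Ideal (𝓞 K)} (hP : P.IsPrime) (hP0 : P ≠ ⊥) (x : K) (hx : Dv P 0 x) :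
    ∃ n : 𝓞 K, Dv P 1 (x - (n : K)) := by
  obtain ⟨a, b, hb, -, hab⟩ := hx
  have hmax : P.IsMaximal := hP.isMaximal hP0
  obtain ⟨y, i, hi, hyi⟩ := Ideal.IsMaximal.exists_inv hmax hb
  refine ⟨a * y, a * i, b, hb, ?_, ?_⟩
  · rw [pow_one]
    exact Ideal.mul_mem_left _ _ hi
  · have h2 : (x - ((a * y : 𝓞 K) : K)) * (b : K) = x * b - a * y * b := by
      push_cast
      ring
    have h3 : a * i = a - a * y * b := by
      have h4 : i = 1 - y * b := by rw [← hyi]; ring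
      rw [h4]
      ring
    rw [h2, hab, h3]
    push_cast
    ring

/-- a product divisible by `Q` -/
lemma even_prime (hV : ST_VAL) {Q : Ideal (𝓞 L)} (hQ : Q.IsPrime) (hQ0 : Q ≠ ⊥) (x y : L)
    (hx : Dv Q 0 x) (hy : Dv Q 0 y) (hxy : Dv Q 1 (x * y)) : Dv Q 1 x ∨ Dv Q 1 y := by
  rcases eq_or_ne x 0 with rfl | hx0
  · exact Or.inl (odd_Dzero hQ 1)
  rcases eq_or_ne y 0 with rfl | hy0
  · exact Or.inr (odd_Dzero hQ 1)
  obtain ⟨v, hv⟩ := hV L Q hQ hQ0
  set u : Lˣ := Units.mk0 x hx0 with hu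
  set w : Lˣ := Units.mk0 y hy0 with hw
  have h1 : Dv Q 0 (u : L) := hx
  have h2 : Dv Q 0 (w : L) := hy
  have h3 : Dv Q 1 ((u * w : Lˣ) : L) := by
    rw [Units.val_mul]
    exact hxy
  rw [hv.dv] at h1 h2 h3
  rw [hv.mul] at h3
  by_cases h4 : (1 : ℤ) ≤ v u
  · left
    have : Dv Q 1 (u : L) := by
      rw [hv.dv]
      exact_mod_cast h4
    exact this
  · right
    have : Dv Q 1 (w : L) := by
      rw [hv.dv]
      push_cast at h1 h2 h3 ⊢
      omega
    exact this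

end even

theorem st_EVEN (hCU : ST_CU1) (hV : ST_VAL) (hD : ST_DVB) : ST_EVEN := by
  classical
  intro K _ _ β a b c κ m p P 𝔞 h L _ _ e he j0 Q hQ ι _ f hf
  obtain ⟨hpr, hbot⟩ := h.pr j0
  have hDQ := hD L Q hQ.pr hQ.bot
  obtain ⟨-, hmono, hadd, hneg, hmul, hunit, hzpow, hmul1, -⟩ := hDQ
  set ψ : ι → L := fun i => e 2 ((f i : Kˣ) : K) / e 1 ((f i : Kˣ) : K) with hψ
  have hψ0 : ∀ i, ψ i ≠ 0 := by
    intro i
    apply div_ne_zero
    · rw [Ne, map_eq_zero]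
      exact (f i).ne_zero
    · rw [Ne, map_eq_zero]
      exact (f i).ne_zero
  have hψi : ∀ i, Dv Q 0 (ψ i) ∧ Dv Q 0 (ψ i)⁻¹ := by
    intro i
    obtain ⟨x, hx⟩ := hf i
    have hu1 := hQ.un (f i) x hx 1 (by decide)
    have hu2 := hQ.un (f i) x hx 2 (by decide)
    constructor
    · have := hmul 0 0 _ _ hu2.1 hu1.2
      rw [add_zero, ← div_eq_mul_inv] at this
      exact this
    · have := hmul 0 0 _ _ hu1.1 hu2.2
      rw [add_zero, ← div_eq_mul_inv] at this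
      rw [hψ, inv_div]
      exact this
  -- the trace of `ψ`
  have hc : ∀ i, ∃ n : 𝓞 K, ∃ z : K, e 0 z = ψ i + (ψ i)⁻¹ ∧ Dv (P j0) 1 (z - (n : K)) := by
    intro i
    obtain ⟨A, B, hA, hB⟩ := even_sym hCU h.cf e he ((f i : Kˣ) : K)
    set z : K := (A ^ 2 - 2 * B) / B with hz
    have h1 : e 1 ((f i : Kˣ) : K) ≠ 0 := by
      rw [Ne, map_eq_zero]
      exact (f i).ne_zero
    have h2 : e 2 ((f i : Kˣ) : K) ≠ 0 := by
      rw [Ne, map_eq_zero]
      exact (f i).ne_zero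
    have hez : e 0 z = ψ i + (ψ i)⁻¹ := by
      rw [hz, map_div₀, map_sub, map_pow, map_mul, map_ofNat, hA, hB]
      show _ = e 2 ((f i : Kˣ) : K) / e 1 ((f i : Kˣ) : K) +
        (e 2 ((f i : Kˣ) : K) / e 1 ((f i : Kˣ) : K))⁻¹
      field_simp
      ring
    have hz0 : Dv Q 0 (e 0 z) := by
      rw [hez]
      exact hadd 0 _ _ (hψi i).1 (hψi i).2
    have hzP := odd_desc hV hD hpr hbot hQ.pr hQ.bot (e 0) hQ.ovr z hz0
    obtain ⟨n, hn⟩ := even_res hpr hbot z hzP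
    exact ⟨n, z, hez, hn⟩
  choose n z hez hn using hc
  -- pigeonhole
  have hfin : Nat.card (𝓞 K ⧸ P j0) = p j0 := by
    rw [← h.nm j0, Ideal.absNorm_apply, Submodule.cardQuot_apply]
  have hfin2 : Finite (𝓞 K ⧸ P j0) := by
    apply Nat.finite_of_card_ne_zero
    rw [hfin]
    exact (h.pp j0).ne_zero
  have := Fintype.ofFinite (𝓞 K ⧸ P j0)
  set r : ι → 𝓞 K ⧸ P j0 := fun i => Ideal.Quotient.mk (P j0) (n i) with hr
  obtain ⟨y, -, hy⟩ := Finset.exists_max_image (Finset.univ : Finset (𝓞 K ⧸ P j0))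
    (fun y => (Finset.univ.filter (fun i => r i = y)).card) ⟨0, Finset.mem_univ _⟩
  set F0 := Finset.univ.filter (fun i => r i = y) with hF0
  have hcard : Fintype.card ι ≤ p j0 * F0.card := by
    have h1 := Finset.card_eq_sum_card_fiberwise (f := r) (s := Finset.univ)
      (t := (Finset.univ : Finset (𝓞 K ⧸ P j0))) (fun _ _ => Finset.mem_coe.mpr (Finset.mem_univ _))
    rw [Finset.card_univ] at h1
    rw [h1]
    calc ∑ b ∈ (Finset.univ : Finset (𝓞 K ⧸ P j0)), (Finset.univ.filter (fun i => r i = b)).card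
        ≤ ∑ b ∈ (Finset.univ : Finset (𝓞 K ⧸ P j0)), F0.card := Finset.sum_le_sum (fun b hb => hy b hb)
      _ = p j0 * F0.card := by
        rw [Finset.sum_const, Finset.card_univ, smul_eq_mul, ← Nat.card_eq_fintype_card, hfin]
  rcases F0.eq_empty_or_nonempty with h0 | ⟨i0, hi0⟩
  · refine ⟨∅, ?_, by simp⟩
    rw [h0] at hcard
    simpa using hcard
  -- the dichotomy
  have hdich : ∀ i ∈ F0, Dv Q 1 (ψ i * (ψ i0)⁻¹ - 1) ∨ Dv Q 1 (ψ i * ψ i0 - 1) := by
    intro i hi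
    have h1 : r i = r i0 := by
      rw [(Finset.mem_filter.mp hi).2, (Finset.mem_filter.mp hi0).2]
    have h2 : n i - n i0 ∈ P j0 := by
      rw [← Ideal.Quotient.eq]
      exact h1
    have hDP := hD K (P j0) hpr hbot
    have h3 : Dv (P j0) 1 ((n i : K) - (n i0 : K)) := by
      refine ⟨n i - n i0, 1, fun h1 => hpr.ne_top ((Ideal.eq_top_iff_one _).mpr h1), ?_, ?_⟩
      · rw [pow_one]
        exact h2
      · push_cast
        ring
    have h4 : Dv (P j0) 1 (z i - z i0) := by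
      have h5 := hDP.2.2.1 1 _ _ (hDP.2.2.1 1 _ _ (hn i) h3) (hDP.2.2.2.1 1 _ (hn i0))
      have h6 : z i - (n i : K) + ((n i : K) - (n i0 : K)) + -(z i0 - (n i0 : K)) =
          z i - z i0 := by ring
      rw [h6] at h5
      exact h5
    have h5 := odd_lift (e 0) hQ.ovr 1 _ h4
    rw [map_sub, hez, hez] at h5
    have h6 : ψ i + (ψ i)⁻¹ - (ψ i0 + (ψ i0)⁻¹) =
        (ψ i * (ψ i0)⁻¹ - 1) * ((ψ i * ψ i0 - 1) * (ψ i)⁻¹) := by
      have h7 := hψ0 i
      have h8 := hψ0 i0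
      field_simp
      ring
    rw [h6] at h5
    have hone : Dv Q 0 (1 : L) := by
      have := hmul 0 0 _ _ (hψi i0).1 (hψi i0).2
      rw [mul_inv_cancel₀ (hψ0 i0)] at this
      exact this
    have h9 : Dv Q 0 (ψ i * (ψ i0)⁻¹ - 1) := by
      rw [sub_eq_add_neg]
      exact hadd 0 _ _ (hmul 0 0 _ _ (hψi i).1 (hψi i0).2) (hneg 0 _ hone)
    have h10 : Dv Q 0 ((ψ i * ψ i0 - 1) * (ψ i)⁻¹) := by
      refine hmul 0 0 _ _ ?_ (hψi i).2
      rw [sub_eq_add_neg]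
      exact hadd 0 _ _ (hmul 0 0 _ _ (hψi i).1 (hψi i0).1) (hneg 0 _ hone)
    rcases even_prime hV hQ.pr hQ.bot _ _ h9 h10 h5 with h11 | h11
    · exact Or.inl h11
    · right
      have h12 := hmul 1 0 _ _ h11 (hψi i).1
      rw [mul_assoc, inv_mul_cancel₀ (hψ0 i), mul_one] at h12
      exact h12
  set F1 := F0.filter (fun i => Dv Q 1 (ψ i * (ψ i0)⁻¹ - 1)) with hF1
  set F2 := F0.filter (fun i => Dv Q 1 (ψ i * ψ i0 - 1)) with hF2
  have hcov : F0.card ≤ F1.card + F2.card := by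
    refine (Finset.card_le_card ?_).trans (Finset.card_union_le F1 F2)
    intro i hi
    rw [Finset.mem_union]
    rcases hdich i hi with h1 | h1
    · exact Or.inl (Finset.mem_filter.mpr ⟨hi, h1⟩)
    · exact Or.inr (Finset.mem_filter.mpr ⟨hi, h1⟩)
  have hgoal : ∀ i j, e 2 ((f i * (f j)⁻¹ : Kˣ) : K) / e 1 ((f i * (f j)⁻¹ : Kˣ) : K) =
      ψ i * (ψ j)⁻¹ := by
    intro i j
    rw [Units.val_mul, Units.val_inv_eq_inv_val, map_mul, map_mul, map_inv₀, map_inv₀]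
    show _ = e 2 ((f i : Kˣ) : K) / e 1 ((f i : Kˣ) : K) *
      (e 2 ((f j : Kˣ) : K) / e 1 ((f j : Kˣ) : K))⁻¹
    rw [inv_div, mul_div_mul_comm, inv_div_inv]
  have hkey : ∀ (w x y : L), w ≠ 0 → Dv Q 1 (x * w - 1) → Dv Q 1 (y * w - 1) → 
      Dv Q 1 (x * y⁻¹ - 1) := by
    intro w x y hw h1 h2
    have h3 := hzpow 1 (y * w) (-1) (le_refl _) h2
    rw [zpow_neg_one] at h3
    have h4 := hmul1 1 _ _ (le_refl _) h1 h3
    have h5 : x * w * (y * w)⁻¹ = x * y⁻¹ := by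
      rw [mul_inv]
      have : x * w * (y⁻¹ * w⁻¹) = x * y⁻¹ * (w * w⁻¹) := by ring
      rw [this, mul_inv_cancel₀ hw, mul_one]
    rw [h5] at h4
    exact h4
  rcases le_total F1.card F2.card with hle | hle
  · refine ⟨F2, ?_, ?_⟩
    · calc Fintype.card ι ≤ p j0 * F0.card := hcard
        _ ≤ p j0 * (2 * F2.card) := Nat.mul_le_mul_left _ (by omega)
        _ = 2 * p j0 * F2.card := by ring
    · intro i hi j hj
      rw [hgoal]
      exact hkey (ψ i0) _ _ (hψ0 i0) (Finset.mem_filter.mp hi).2 (Finset.mem_filter.mp hj).2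
  · refine ⟨F1, ?_, ?_⟩
    · calc Fintype.card ι ≤ p j0 * F0.card := hcard
        _ ≤ p j0 * (2 * F1.card) := Nat.mul_le_mul_left _ (by omega)
        _ = 2 * p j0 * F1.card := by ring
    · intro i hi j hj
      rw [hgoal]
      exact hkey (ψ i0)⁻¹ _ _ (inv_ne_zero (hψ0 i0)) (Finset.mem_filter.mp hi).2
        (Finset.mem_filter.mp hj).2

end Pool.Helper99.SZ
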