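import Pool.Agent.Helper99.SZ.Stmts5
import Pool.Agent.Helper99.BK.Stmts
import Pool.Agent.Helper68.SZ.PNA

set_option autoImplicit false

/-! (HPN) a polynomial vanishing on the points of small size, with the archimedean estimate and
binomial polynomials -/

namespace Pool.Helper99.SZ

open NumberField

/-- the numerical contradiction -/
theorem hpn_num (n D v K Lc t N : ℕ) (G U ℓ : ℝ) (hD : 1 ≤ D) (hv : v ≤ n) (hv1 : 1 ≤ v) (hG : 1 ≤ G)
    (hU : 1 ≤ U) (hℓ : 1 ≤ ℓ) (hN : 1 ≤ N) (hK : 1 ≤ K) (hL : 1 ≤ Lc)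
    (hKG : 4096 * ((n : ℝ) + 1) * D * U ≤ K * G) (hLG : 4096 * ((n : ℝ) + 1) ^ 2 * D * ℓ ≤ Lc * G)
    (ht : (N : ℝ) * Lc * K < 32 * v * t)
    (h : G * t ≤ N * (1 + (D + 2) * ((v : ℝ) * K + Lc) + 2 * K * v + D * (K * (ℓ + v)) +
      2 * D * (Lc * U))) :
    False := by
  have hN' : (1 : ℝ) ≤ N := by exact_mod_cast hN
  have hD' : (1 : ℝ) ≤ D := by exact_mod_cast hD
  have hK' : (1 : ℝ) ≤ K := by exact_mod_cast hK
  have hL' : (1 : ℝ) ≤ Lc := by exact_mod_cast hL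
  have hv' : (v : ℝ) ≤ (n : ℝ) + 1 := by
    have : (v : ℝ) ≤ n := by exact_mod_cast hv
    linarith
  have hv0 : (1 : ℝ) ≤ v := by exact_mod_cast hv1
  obtain ⟨m, hm⟩ : ∃ m : ℝ, m = (n : ℝ) + 1 := ⟨_, rfl⟩
  rw [← hm] at hKG hLG hv'
  have hm1 : 1 ≤ m := hv0.trans hv'
  obtain ⟨X, hX⟩ : ∃ X : ℝ, X = K * Lc * G := ⟨_, rfl⟩
  have hX0 : 0 < X := by rw [hX]; positivity
  -- N X < 32 v G t
  have h1 : (N : ℝ) * X < 32 * v * (G * t) := by
    have := mul_lt_mul_of_pos_right ht (show (0 : ℝ) < G by linarith)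
    rw [hX]
    calc (N : ℝ) * (K * Lc * G) = (N : ℝ) * Lc * K * G := by ring
      _ < 32 * v * t * G := this
      _ = 32 * v * (G * t) := by ring
  obtain ⟨E, hE⟩ : ∃ E : ℝ, E = 1 + (D + 2) * ((v : ℝ) * K + Lc) + 2 * K * v + D * (K * (ℓ + v)) +
    2 * D * (Lc * U) := ⟨_, rfl⟩
  rw [← hE] at h
  have hE0 : 0 ≤ E := by rw [hE]; positivity
  have h2 : (N : ℝ) * X < N * (32 * m * E) := by
    calc (N : ℝ) * X < 32 * v * (G * t) := h1
      _ ≤ 32 * v * (N * E) := mul_le_mul_of_nonneg_left h (by positivity)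
      _ ≤ 32 * m * (N * E) := mul_le_mul_of_nonneg_right (by linarith) (by positivity)
      _ = N * (32 * m * E) := by ring
  have h3 : X < 32 * m * E := lt_of_mul_lt_mul_left h2 (by positivity)
  -- the basic bounds
  have b1 : 4096 * (m * D * (Lc * U)) ≤ X := by
    have := mul_le_mul_of_nonneg_right hKG (show (0 : ℝ) ≤ Lc by positivity)
    rw [hX]
    linarith
  have b2 : 4096 * (m ^ 2 * D * (K * ℓ)) ≤ X := by
    have := mul_le_mul_of_nonneg_right hLG (show (0 : ℝ) ≤ K by positivity)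
    rw [hX]
    linarith
  have c1 : m * D * (Lc * 1) ≤ m * D * (Lc * U) :=
    mul_le_mul_of_nonneg_left (mul_le_mul_of_nonneg_left hU (by positivity)) (by positivity)
  have c2 : m ^ 2 * D * (K * 1) ≤ m ^ 2 * D * (K * ℓ) :=
    mul_le_mul_of_nonneg_left (mul_le_mul_of_nonneg_left hℓ (by positivity)) (by positivity)
  have c3 : m * D * (K * ℓ) ≤ m ^ 2 * D * (K * ℓ) := by
    have : m * (D * (K * ℓ)) ≤ m ^ 2 * (D * (K * ℓ)) :=
      mul_le_mul_of_nonneg_right (by nlinarith) (by positivity)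
    linarith
  have c4 : m * 1 ≤ m * (D * Lc) :=
    mul_le_mul_of_nonneg_left (one_le_mul_of_one_le_of_one_le hD' hL') (by linarith)
  have c5 : m * (v * K) ≤ m * (m * K) :=
    mul_le_mul_of_nonneg_left (mul_le_mul_of_nonneg_right hv' (by positivity)) (by linarith)
  have c6 : m * (m * K) * 1 ≤ m * (m * K) * D := mul_le_mul_of_nonneg_left hD' (by positivity)
  have c7 : (m * (v * K)) * (D + 2) ≤ (m * (m * K)) * (3 * D) :=
    mul_le_mul c5 (by linarith) (by positivity) (by positivity)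
  have c8 : (m * Lc) * (D + 2) ≤ (m * Lc) * (3 * D) :=
    mul_le_mul_of_nonneg_left (by linarith) (by positivity)
  have c10 : m * (v * K) * D ≤ m * (m * K) * D := mul_le_mul_of_nonneg_right c5 (by positivity)
  have h4 : 32 * m * E ≤ 32 * (m * (D * Lc)) + 32 * ((m * (m * K)) * (3 * D)) +
      32 * ((m * Lc) * (3 * D)) + 64 * (m * (m * K) * D) + 32 * (m * D * (K * ℓ)) +
      32 * (m * (m * K) * D) + 64 * (m * D * (Lc * U)) := by
    rw [hE]
    linarith
  linarith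

/-- the binomial products are independent if the monomials are -/
theorem hpn_inj {L : Type} [Field L] [CharZero L] (v K Lc : ℕ) (τ : Sx v K → Sx v K → ℤ)
    (ht1 : ∀ k k', τ k k' ≠ 0 → ∀ i, (k'.1 i : ℕ) ≤ (k.1 i : ℕ)) (ht2 : ∀ k, τ k k = 1)
    (x : Sx v K × Fin Lc → L)
    (hx : ∀ j : Sx v K × Fin Lc, ∑ k, ((τ k j.1 : ℤ) : L) /
      (∏ i, ((k.1 i : ℕ).factorial : L)) * x (k, j.2) = 0) : x = 0 := by
  have key : ∀ d : ℕ, ∀ (k : Sx v K) (l : Fin Lc), K - ∑ i, (k.1 i : ℕ) ≤ d → x (k, l) = 0 := by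
    intro d
    induction d using Nat.strong_induction_on with
    | _ d ih =>
      intro k l hk
      have h := hx (k, l)
      simp only at h
      rw [Finset.sum_eq_single k] at h
      · rw [ht2, Int.cast_one, one_div] at h
        rcases mul_eq_zero.1 h with h' | h'
        · exfalso
          refine absurd h' (inv_ne_zero (Finset.prod_ne_zero_iff.2 fun i _ => ?_))
          exact Nat.cast_ne_zero.2 (Nat.factorial_ne_zero _)
        · exact h'
      · intro k2 _ hne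
        by_cases hτ : τ k2 k = 0
        · rw [hτ, Int.cast_zero, zero_div, zero_mul]
        · have hle := ht1 k2 k hτ
          have hlt : ∑ i, (k.1 i : ℕ) < ∑ i, (k2.1 i : ℕ) := by
            refine Finset.sum_lt_sum (fun i _ => hle i) ?_
            by_contra hc
            push Not at hc
            apply hne
            refine Subtype.ext (funext fun i => Fin.ext ?_)
            exact le_antisymm (hc i (Finset.mem_univ i)) (hle i)
          have h2 := k2.2
          rw [ih (K - ∑ i, (k2.1 i : ℕ)) (by omega) k2 l le_rfl, mul_zero]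
      · intro h'
        exact absurd (Finset.mem_univ k) h'
  funext j
  exact key _ j.1 j.2 le_rfl

theorem hpn_expand {L : Type} [Field L] [CharZero L] (v K : ℕ) (τ : Sx v K → Sx v K → ℤ)
    (ht3 : ∀ (z : Fin v → ℤ) (k : Sx v K), (∏ i, ((k.1 i : ℕ).factorial : ℤ)) *
      ∏ i, Ring.choose (z i) (k.1 i : ℕ) = ∑ k' : Sx v K, τ k k' * ∏ i, z i ^ (k'.1 i : ℕ))
    (z : Fin v → ℤ) (k : Sx v K) :
    ((∏ i, Ring.choose (z i) (k.1 i : ℕ) : ℤ) : L) =
      ∑ k' : Sx v K, ((τ k k' : ℤ) : L) / (∏ i, ((k.1 i : ℕ).factorial : L)) *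
        ∏ i, ((z i : ℤ) : L) ^ (k'.1 i : ℕ) := by
  have h := congrArg (fun y : ℤ => (y : L)) (ht3 z k)
  simp only [Int.cast_mul, Int.cast_sum] at h
  have hf : (∏ i, ((k.1 i : ℕ).factorial : L)) ≠ 0 :=
    Finset.prod_ne_zero_iff.2 fun i _ => Nat.cast_ne_zero.2 (Nat.factorial_ne_zero _)
  have e1 : ((∏ i, ((k.1 i : ℕ).factorial : ℤ) : ℤ) : L) = ∏ i, ((k.1 i : ℕ).factorial : L) := by
    rw [Int.cast_prod]
    refine Finset.prod_congr rfl fun i _ => ?_
    exact Int.cast_natCast _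
  rw [e1] at h
  rw [← mul_right_inj' hf, h, Finset.mul_sum]
  refine Finset.sum_congr rfl fun k' _ => ?_
  rw [Int.cast_prod, div_mul_eq_mul_div, mul_div_cancel₀ _ hf]
  congr 1
  refine Finset.prod_congr rfl fun i _ => ?_
  exact Int.cast_pow _ _

theorem hpn_swap {L : Type} [Field L] [CharZero L] (v K Lc : ℕ) (τ : Sx v K → Sx v K → ℤ)
    (ht3 : ∀ (z : Fin v → ℤ) (k : Sx v K), (∏ i, ((k.1 i : ℕ).factorial : ℤ)) *
      ∏ i, Ring.choose (z i) (k.1 i : ℕ) = ∑ k' : Sx v K, τ k k' * ∏ i, z i ^ (k'.1 i : ℕ))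
    (z : Fin v → ℤ) (w : L) (x : Sx v K × Fin Lc → L) :
    ∑ j : Sx v K × Fin Lc, (∑ k, ((τ k j.1 : ℤ) : L) / (∏ i, ((k.1 i : ℕ).factorial : L)) *
      x (k, j.2)) * ((∏ i, ((z i : ℤ) : L) ^ (j.1.1 i : ℕ)) * w ^ (j.2 : ℕ)) =
    ∑ j : Sx v K × Fin Lc, (((∏ i, Ring.choose (z i) (j.1.1 i : ℕ) : ℤ) : L) * w ^ (j.2 : ℕ)) *
      x j := by
  rw [Fintype.sum_prod_type, Fintype.sum_prod_type, Finset.sum_comm]
  rw [Finset.sum_comm (s := (Finset.univ : Finset (Sx v K)))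
    (t := (Finset.univ : Finset (Fin Lc)))]
  refine Finset.sum_congr rfl fun l _ => ?_
  simp only [hpn_expand v K τ ht3 z, Finset.sum_mul]
  rw [Finset.sum_comm]
  refine Finset.sum_congr rfl fun k _ => Finset.sum_congr rfl fun k' _ => ?_
  ring

theorem st_HPN (h1 : ST_HAD) (h2 : ST_HTR) (h3 : Pool.Helper99.BK.ST_MINOR)
    (h4 : Pool.Helper99.BK.ST_AR) (h5 : Pool.Helper99.BK.ST_AN6) : ST_HPN := by
  intro n D hD L _ _ hfr φ g0 g nrm G Z U ℓ Ti K Lc c ω lam0 hG hZ hLD hlam hgi hnω hlamT hU hℓ hZG hKG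
    hLG hLn hTi v V hv1 hV J hJ
  classical
  have hG0 : (0 : ℝ) < G := by linarith
  have hD' : (1 : ℝ) ≤ D := by exact_mod_cast hD
  have hn0 : (0 : ℝ) ≤ (n : ℝ) := by positivity
  have hvn : v ≤ n := by
    rw [← hV]
    have := Submodule.finrank_le V
    rwa [Module.finrank_fintype_fun_eq_card, Fintype.card_fin] at this
  have hZU1 : 1 ≤ Z * U := one_le_mul_of_one_le_of_one_le hZ hU
  have hKG1 : 4096 * U ≤ K * G := by
    refine le_trans ?_ hKG
    have : 4096 * (1 * 1) * U ≤ 4096 * (((n : ℝ) + 1) * D) * U :=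
      mul_le_mul_of_nonneg_right (mul_le_mul_of_nonneg_left
        (mul_le_mul (by linarith) hD' (by norm_num) (by positivity)) (by norm_num)) (by linarith)
    linarith
  have hK1 : 1 ≤ K := by
    rcases Nat.eq_zero_or_pos K with h | h
    · exfalso
      rw [h] at hKG1
      simp only [Nat.cast_zero, zero_mul] at hKG1
      linarith
    · exact h
  have hL32 : 32 * v ≤ Lc := by omega
  have hL1 : 1 ≤ Lc := by omega
  have hK' : (1 : ℝ) ≤ K := by exact_mod_cast hK1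
  have hL' : (1 : ℝ) ≤ Lc := by exact_mod_cast hL1
  obtain ⟨τ, ht1, ht2, ht3, ht4, ht5⟩ := h2 v K hK1
  -- the bound for the binomial polynomials
  have hbin : (1 + (Z * U) / K) ^ K * Real.exp (v * K) ≤ Real.exp (K * (ℓ + v)) := by
    have h6 : Z * U / K ≤ Z * G := by
      rw [mul_div_assoc]
      refine mul_le_mul_of_nonneg_left ?_ (by linarith)
      rw [div_le_iff₀ (by linarith)]
      linarith
    have h7 : 1 + Z * U / K ≤ Real.exp ℓ := by
      have h8 : 1 + Z * G ≤ Real.exp ℓ := by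
        rw [← Real.log_le_iff_le_exp (by positivity)]
        exact hZG
      linarith
    have h9 : (1 + (Z * U) / K) ^ K ≤ Real.exp (K * ℓ) := by
      rw [Real.exp_nat_mul]
      exact pow_le_pow_left₀ (by positivity) h7 _
    calc (1 + (Z * U) / K) ^ K * Real.exp (v * K) ≤ Real.exp (K * ℓ) * Real.exp (v * K) :=
          mul_le_mul_of_nonneg_right h9 (Real.exp_pos _).le
      _ = Real.exp (K * (ℓ + v)) := by
          rw [← Real.exp_add]
          congr 1
          ring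
  by_contra hcon
  push Not at hcon
  -- the points
  obtain ⟨r, hr⟩ := h3 L {a : ℤ × (Fin n → ℤ) // nrm a ≤ U ∧ (fun i => ((a.2 i : ℤ) : ℚ)) ∈ V}
    (Sx v K × Fin Lc) (fun a j => ((∏ i, Ring.choose (a.1.2 (J i)) (j.1.1 i : ℕ) : ℤ) : L) *
      (g0 ^ a.1.1 * ∏ i, g i ^ (a.1.2 i)) ^ (j.2 : ℕ)) (by
      intro x hx
      refine hpn_inj v K Lc τ ht1 ht2 x ?_
      by_contra hne
      obtain ⟨a, ha1, ha2, ha3⟩ := hcon (fun j => ∑ k, ((τ k j.1 : ℤ) : L) /
        (∏ i, ((k.1 i : ℕ).factorial : L)) * x (k, j.2)) (by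
          intro h0
          exact hne fun j => congrFun h0 j)
      apply ha3
      have h6 := hpn_swap v K Lc τ ht3 (fun i => a.2 (J i)) (g0 ^ a.1 * ∏ i, g i ^ (a.2 i)) x
      rw [h6]
      exact hx ⟨a, ha1, ha2⟩)
  obtain ⟨N, hN⟩ : ∃ N : ℕ, N = Fintype.card (Sx v K × Fin Lc) := ⟨_, rfl⟩
  have hN1 : 1 ≤ N := by
    rw [hN, Fintype.card_prod, Fintype.card_fin]
    have : 0 < Fintype.card (Sx v K) := Fintype.card_pos_iff.2 ⟨⟨fun _ => 0, by simp⟩⟩
    exact Nat.mul_pos this hL1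
  have hKv0 : (0 : ℝ) ≤ K * (ℓ + v) := by positivity
  -- denominators
  choose qd hqd using hLD.den
  have har := h4 L φ (Sx v K × Fin Lc) _ hr (fun p => (qd (r p).1) ^ Lc)
    (fun p => pow_pos (hqd (r p).1).1 _) (by
      intro p j
      rw [Matrix.of_apply]
      have e1 : (((qd (r p).1) ^ Lc : ℕ) : L) *
          (((∏ i, Ring.choose ((r p).1.2 (J i)) (j.1.1 i : ℕ) : ℤ) : L) *
          (g0 ^ (r p).1.1 * ∏ i, g i ^ ((r p).1.2 i)) ^ (j.2 : ℕ)) =
          ((∏ i, Ring.choose ((r p).1.2 (J i)) (j.1.1 i : ℕ) : ℤ) : L) *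
          ((((qd (r p).1 : ℕ) : L) ^ (Lc - (j.2 : ℕ))) *
          (((qd (r p).1 : ℕ) : L) * (g0 ^ (r p).1.1 * ∏ i, g i ^ ((r p).1.2 i))) ^ (j.2 : ℕ)) := by
        have e3 : (((qd (r p).1 : ℕ) : L)) ^ Lc = ((qd (r p).1 : ℕ) : L) ^ (Lc - (j.2 : ℕ)) *
            ((qd (r p).1 : ℕ) : L) ^ (j.2 : ℕ) := by
          rw [← pow_add]
          congr 1
          have := j.2.2
          omega
        rw [Nat.cast_pow, e3, mul_pow (((qd (r p).1 : ℕ) : L))
          (g0 ^ (r p).1.1 * ∏ i, g i ^ ((r p).1.2 i))]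
        ring
      rw [e1]
      refine IsIntegral.mul ?_ (IsIntegral.mul ?_ ?_)
      · exact isIntegral_algebraMap (R := ℤ)
          (x := (∏ i, Ring.choose ((r p).1.2 (J i)) (j.1.1 i : ℕ) : ℤ))
      · refine IsIntegral.pow ?_ _
        exact_mod_cast isIntegral_algebraMap (R := ℤ) (A := L) (x := ((qd (r p).1 : ℕ) : ℤ))
      · exact IsIntegral.pow (hqd (r p).1).2.2 _)
    (Real.exp (Lc * U)) (Real.exp (K * (ℓ + v)) * Real.exp (Lc * U))
    (one_le_mul_of_one_le_of_one_le (Real.one_le_exp hKv0) (Real.one_le_exp (by positivity)))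
    (by
      intro σ p j
      rw [Matrix.of_apply, map_mul, map_pow, norm_mul, norm_pow, map_intCast, Complex.norm_intCast]
      have ha := (r p).2.1
      refine mul_le_mul ?_ ?_ (pow_nonneg (norm_nonneg _) _) (Real.exp_pos _).le
      · refine (ht5 (Z * U) (fun i => (r p).1.2 (J i)) j.1 hZU1 (fun i => ?_)).trans hbin
        exact (hLD.coo (r p).1 (J i)).trans (mul_le_mul_of_nonneg_left ha (by linarith))
      · have h6 := (hLD.conj (r p).1 σ).trans (Real.exp_le_exp.2 ha)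
        calc ‖σ (g0 ^ (r p).1.1 * ∏ i, g i ^ ((r p).1.2 i))‖ ^ (j.2 : ℕ)
            ≤ Real.exp U ^ (j.2 : ℕ) := pow_le_pow_left₀ (norm_nonneg _) h6 _
          _ ≤ Real.exp U ^ Lc := pow_le_pow_right₀ (Real.one_le_exp (by linarith)) j.2.2.le
          _ = Real.exp (Lc * U) := by rw [← Real.exp_nat_mul])
    (by
      intro p
      have h6 := (hqd (r p).1).2.1.trans (Real.exp_le_exp.2 (r p).2.1)
      calc (((qd (r p).1) ^ Lc : ℕ) : ℝ) = ((qd (r p).1 : ℕ) : ℝ) ^ Lc := by push_cast; rfl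
        _ ≤ Real.exp U ^ Lc := pow_le_pow_left₀ (by positivity) h6 _
        _ = Real.exp (Lc * U) := by rw [← Real.exp_nat_mul])
  -- the analytic estimate
  obtain ⟨t, ht⟩ : ∃ t : ℕ, t = N * Lc * K / (16 * v) := ⟨_, rfl⟩
  have h16 : 0 < 16 * v := by omega
  have htt1 : 16 * v * t ≤ N * Lc * K := by
    rw [ht]
    exact Nat.mul_div_le _ _
  have hbig : 16 * v ≤ N * Lc * K := by
    have h6 : 1 * Lc * 1 ≤ N * Lc * K := Nat.mul_le_mul (Nat.mul_le_mul_right _ hN1) hK1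
    omega
  have htt2 : 1 ≤ t := by
    rw [ht]
    exact (Nat.one_le_div_iff h16).2 hbig
  have htt3 : N * Lc * K < 32 * v * t := by
    have h6 : N * Lc * K < 16 * v * (t + 1) := by
      rw [ht]
      exact Nat.lt_mul_div_succ _ h16
    have h7 : 16 * v * (t + 1) ≤ 32 * v * t := by
      have h8 : 16 * v * 1 ≤ 16 * v * t := Nat.mul_le_mul_left _ htt2
      calc 16 * v * (t + 1) = 16 * v * t + 16 * v * 1 := by ring
        _ ≤ 16 * v * t + 16 * v * t := by omega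
        _ = 32 * v * t := by ring
    omega
  have hTX : ∀ (p : Sx v K × Fin Lc) (l : Fin Lc),
      ‖((l : ℕ) : ℂ) * ((((r p).1.1 : ℤ) : ℂ) * lam0)‖ ≤ (Lc : ℝ) * U * Real.exp (-Ti) := by
    intro p l
    rw [norm_mul, norm_mul, Complex.norm_natCast, Complex.norm_intCast, ← mul_assoc]
    have hl : ((l : ℕ) : ℝ) ≤ Lc := by exact_mod_cast l.2.le
    refine mul_le_mul (mul_le_mul hl ((hLD.co0 (r p).1).trans (r p).2.1) (abs_nonneg _) (by positivity))
      hlamT (norm_nonneg _) (by positivity)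
  have hsmall : 2 * ((Lc : ℝ) * U * Real.exp (-Ti)) ≤ Real.exp (-(K * Lc * G)) := by
    have h6 : 2 * ((Lc : ℝ) * U) ≤ K * Lc * G := by
      have := mul_le_mul_of_nonneg_left hKG1 (show (0 : ℝ) ≤ Lc by positivity)
      have h7 : (0 : ℝ) ≤ Lc * U := by positivity
      linarith
    have h8 : (K : ℝ) * Lc * G ≤ Real.exp (K * Lc * G) := by
      have := Real.add_one_le_exp ((K : ℝ) * Lc * G)
      linarith
    have h9 : Real.exp (-Ti) ≤ Real.exp (-(2 * K * Lc * G)) := Real.exp_le_exp.2 (by linarith)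
    calc 2 * ((Lc : ℝ) * U * Real.exp (-Ti)) = (2 * ((Lc : ℝ) * U)) * Real.exp (-Ti) := by ring
      _ ≤ Real.exp (K * Lc * G) * Real.exp (-(2 * K * Lc * G)) :=
          mul_le_mul (h6.trans h8) h9 (Real.exp_pos _).le (Real.exp_pos _).le
      _ = Real.exp (-(K * Lc * G)) := by
          rw [← Real.exp_add]
          congr 1
          ring
  have hXpos : (0 : ℝ) ≤ K * Lc * G := by positivity
  have had := h1 n v K Lc t hv1 V hV J hJ hK1 hL32 (by rw [← hN]; exact htt1)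
    (fun p => (r p).1.2) (fun p => (r p).2.2) c ω (fun p => (((r p).1.1 : ℤ) : ℂ) * lam0)
    (Z * U) U G (K * Lc * G) hZU1 (by linarith) hG0.le hXpos
    (fun p i => (hLD.coo (r p).1 i).trans (mul_le_mul_of_nonneg_left (r p).2.1 (by linarith)))
    (fun p => (hnω (r p).1).trans (r p).2.1)
    (by
      intro p l
      have h6 := hTX p l
      have h7 : ‖((l : ℕ) : ℂ) * ((((r p).1.1 : ℤ) : ℂ) * lam0)‖ ≤ 1 := by
        have h8 : Real.exp (-(K * Lc * G)) ≤ 1 := Real.exp_le_one_iff.2 (by linarith)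
        have h9 : 0 ≤ (Lc : ℝ) * U * Real.exp (-Ti) := by positivity
        linarith
      have h8 := Complex.norm_exp_sub_one_le h7
      linarith)
    (by
      rw [← hN]
      have h6 : (16 : ℝ) * v * t ≤ N * Lc * K := by exact_mod_cast htt1
      have h7 : (1 : ℝ) * t ≤ v * t := mul_le_mul_of_nonneg_right (by exact_mod_cast hv1) (by positivity)
      have h8 : 2 * (t : ℝ) ≤ N * Lc * K := by
        have : (0 : ℝ) ≤ v * t := by positivity
        linarith
      have h9 := mul_le_mul_of_nonneg_right h8 hG0.le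
      linarith)
  -- the transition matrix
  obtain ⟨Z1, hZ1⟩ : ∃ Z1 : ℝ, Z1 = Z * U := ⟨_, rfl⟩
  rw [← hZ1] at had hbin hZU1
  have hZ1c : (Z1 : ℂ) ≠ 0 := by
    have : Z1 ≠ 0 := by linarith
    exact_mod_cast this
  obtain ⟨Tm, hTm⟩ : ∃ Tm : Matrix (Sx v K × Fin Lc) (Sx v K × Fin Lc) ℂ,
      Tm = Matrix.of (fun j' j : Sx v K × Fin Lc => if j'.2 = j.2 then
        ((τ j.1 j'.1 : ℤ) : ℂ) * (Z1 : ℂ) ^ (∑ i, (j'.1.1 i : ℕ)) /
          (∏ i, ((j.1.1 i : ℕ).factorial : ℂ)) else 0) := ⟨_, rfl⟩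
  have hTdet : ‖Tm.det‖ ≤ ((N.factorial : ℕ) : ℝ) * Real.exp (K * (ℓ + v)) ^ N := by
    rw [hN]
    refine h5 (Sx v K × Fin Lc) Tm (Real.exp (K * (ℓ + v))) ?_
    intro j' j
    rw [hTm, Matrix.of_apply]
    split_ifs with hl
    · rw [norm_div, norm_mul, Complex.norm_intCast, norm_pow, Complex.norm_real, norm_prod,
        Real.norm_eq_abs, abs_of_nonneg (show (0 : ℝ) ≤ Z1 by linarith)]
      have h6 := (ht4 Z1 j.1 j'.1 hZU1).trans hbin
      have e1 : ∏ i, ‖((j.1.1 i : ℕ).factorial : ℂ)‖ = ∏ i, ((j.1.1 i : ℕ).factorial : ℝ) :=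
        Finset.prod_congr rfl fun i _ => Complex.norm_natCast _
      rw [e1]
      exact h6
    · rw [norm_zero]
      exact (Real.exp_pos _).le
  -- the two determinants agree
  have hmat : (Matrix.of (fun i j => (fun (a : {a : ℤ × (Fin n → ℤ) // nrm a ≤ U ∧
      (fun i => ((a.2 i : ℤ) : ℚ)) ∈ V}) (j : Sx v K × Fin Lc) =>
      ((∏ i, Ring.choose (a.1.2 (J i)) (j.1.1 i : ℕ) : ℤ) : L) *
      (g0 ^ a.1.1 * ∏ i, g i ^ (a.1.2 i)) ^ (j.2 : ℕ)) (r i) j)).map φ =
      (Matrix.of (fun p j : Sx v K × Fin Lc =>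
        (∏ i, ((((r p).1.2 (J i) : ℤ) : ℂ) / (Z1 : ℂ)) ^ (j.1.1 i : ℕ)) *
        Complex.exp (((∑ i, c i * (((r p).1.2 i : ℤ) : ℝ) : ℝ) : ℂ) * ω +
          (((r p).1.1 : ℤ) : ℂ) * lam0) ^ (j.2 : ℕ))) * Tm := by
    ext p j
    rw [Matrix.map_apply, Matrix.of_apply, Matrix.mul_apply, map_mul, map_pow, map_intCast,
      ← pna_exp n φ g0 g c ω lam0 hlam hgi (r p).1, Fintype.sum_prod_type]
    simp only [hTm, Matrix.of_apply]
    rw [hpn_expand v K τ ht3 (fun i => (r p).1.2 (J i)) j.1, Finset.sum_mul]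
    refine Finset.sum_congr rfl fun k' _ => ?_
    rw [Finset.sum_eq_single j.2]
    · rw [if_pos rfl]
      have e1 : (∏ i, (((r p).1.2 (J i) : ℤ) : ℂ) ^ (k'.1 i : ℕ)) =
          (∏ i, ((((r p).1.2 (J i) : ℤ) : ℂ) / (Z1 : ℂ)) ^ (k'.1 i : ℕ)) *
          (Z1 : ℂ) ^ (∑ i, (k'.1 i : ℕ)) := by
        rw [← Finset.prod_pow_eq_pow_sum, ← Finset.prod_mul_distrib]
        refine Finset.prod_congr rfl fun i _ => ?_
        rw [← mul_pow, div_mul_cancel₀ _ hZ1c]
      rw [e1]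
      ring
    · intro l' _ hne
      rw [if_neg hne, mul_zero]
    · intro h'
      exact absurd (Finset.mem_univ _) h'
  have hdet := congrArg Matrix.det hmat
  rw [← RingHom.mapMatrix_apply, ← RingHom.map_det, Matrix.det_mul] at hdet
  rw [hdet, ← hN, norm_mul] at har
  rw [← hN] at had
  -- exponents
  have hfr1 : 1 ≤ Module.finrank ℚ L := Module.finrank_pos
  have hNe : (N : ℝ) ≤ Real.exp ((v : ℝ) * K + Lc) := by
    rw [hN]
    exact pna_card v K Lc
  have hfac : ((N.factorial : ℕ) : ℝ) ≤ Real.exp (N * ((v : ℝ) * K + Lc)) := by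
    have h6 : ((N.factorial : ℕ) : ℝ) ≤ (N : ℝ) ^ N := by exact_mod_cast Nat.factorial_le_pow N
    refine h6.trans ?_
    rw [Real.exp_nat_mul]
    exact pow_le_pow_left₀ (by positivity) hNe _
  have hfac1 : (1 : ℝ) ≤ ((N.factorial : ℕ) : ℝ) := by
    exact_mod_cast Nat.succ_le_of_lt (Nat.factorial_pos N)
  have hve : (v : ℝ) ^ (2 * K) ≤ Real.exp (2 * K * v) := by
    have h6 : (v : ℝ) ≤ Real.exp v := by
      have := Real.add_one_le_exp (v : ℝ)
      linarith
    have h7 : Real.exp (2 * K * v) = Real.exp v ^ (2 * K) := by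
      rw [← Real.exp_nat_mul]
      push_cast
      ring_nf
    rw [h7]
    exact pow_le_pow_left₀ (by positivity) h6 _
  obtain ⟨lam, hlamd⟩ : ∃ lam : ℝ, lam = (v : ℝ) * K + Lc := ⟨_, rfl⟩
  rw [← hlamd] at hfac
  obtain ⟨kap, hkap⟩ : ∃ kap : ℝ, kap = K * (ℓ + v) := ⟨_, rfl⟩
  rw [← hkap] at hTdet har hKv0
  have hB1 : (1 : ℝ) ≤ (N.factorial : ℝ) * (Real.exp kap * Real.exp (Lc * U)) ^ N :=
    one_le_mul_of_one_le_of_one_le hfac1 (one_le_pow₀
      (one_le_mul_of_one_le_of_one_le (Real.one_le_exp hKv0) (Real.one_le_exp (by positivity))))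
  have hBe : (N.factorial : ℝ) * (Real.exp kap * Real.exp (Lc * U)) ^ N ≤
      Real.exp (N * (lam + (kap + Lc * U))) := by
    have h6 : (Real.exp kap * Real.exp (Lc * U)) ^ N = Real.exp (N * (kap + Lc * U)) := by
      rw [Real.exp_nat_mul (kap + Lc * U) N, Real.exp_add]
    rw [h6]
    calc (N.factorial : ℝ) * Real.exp (N * (kap + Lc * U))
        ≤ Real.exp (N * lam) * Real.exp (N * (kap + Lc * U)) :=
          mul_le_mul_of_nonneg_right hfac (Real.exp_pos _).le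
      _ = Real.exp (N * (lam + (kap + Lc * U))) := by
          rw [← Real.exp_add]
          congr 1
          ring
  have hx1 : ((Real.exp (Lc * U)) ^ N) ^ (Module.finrank ℚ L) ≤ Real.exp (D * (N * (Lc * U))) := by
    calc ((Real.exp (Lc * U)) ^ N) ^ (Module.finrank ℚ L) ≤ ((Real.exp (Lc * U)) ^ N) ^ D :=
          pow_le_pow_right₀ (one_le_pow₀ (Real.one_le_exp (by positivity))) hfr
      _ = Real.exp (D * (N * (Lc * U))) := by
          rw [Real.exp_nat_mul (N * (Lc * U)) D, Real.exp_nat_mul (Lc * U) N]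
  have hx2 : ((N.factorial : ℝ) * (Real.exp kap * Real.exp (Lc * U)) ^ N) ^
      (Module.finrank ℚ L - 1) ≤ Real.exp (((D : ℝ) - 1) * (N * (lam + (kap + Lc * U)))) := by
    calc ((N.factorial : ℝ) * (Real.exp kap * Real.exp (Lc * U)) ^ N) ^ (Module.finrank ℚ L - 1)
        ≤ ((N.factorial : ℝ) * (Real.exp kap * Real.exp (Lc * U)) ^ N) ^ (D - 1) :=
          pow_le_pow_right₀ hB1 (Nat.sub_le_sub_right hfr 1)
      _ ≤ (Real.exp (N * (lam + (kap + Lc * U)))) ^ (D - 1) :=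
          pow_le_pow_left₀ (by positivity) hBe _
      _ = Real.exp (((D : ℝ) - 1) * (N * (lam + (kap + Lc * U)))) := by
          rw [← Real.exp_nat_mul, Nat.cast_sub hD, Nat.cast_one]
  have hx3 : (2 : ℝ) ^ N * (((N.factorial : ℕ) : ℝ) ^ 2 *
      ((v : ℝ) ^ (2 * K) * Real.exp (Lc * U)) ^ N) * Real.exp (-(G * t)) ≤
      Real.exp (N * 1 + (2 * (N * lam) + N * (2 * K * v + Lc * U)) + -(G * t)) := by
    have h6 : (2 : ℝ) ^ N ≤ Real.exp (N * 1) := by
      rw [Real.exp_nat_mul]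
      refine pow_le_pow_left₀ (by norm_num) ?_ _
      have := Real.add_one_le_exp (1 : ℝ)
      linarith
    have h7 : ((N.factorial : ℕ) : ℝ) ^ 2 ≤ Real.exp (2 * (N * lam)) := by
      have h8 : Real.exp (2 * (N * lam)) = Real.exp (N * lam) ^ 2 := by
        rw [← Real.exp_nat_mul]
        norm_num
      rw [h8]
      exact pow_le_pow_left₀ (by positivity) hfac _
    have h9 : (v : ℝ) ^ (2 * K) * Real.exp (Lc * U) ≤ Real.exp (2 * K * v + Lc * U) := by
      rw [Real.exp_add]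
      exact mul_le_mul_of_nonneg_right hve (Real.exp_pos _).le
    have h10 : ((v : ℝ) ^ (2 * K) * Real.exp (Lc * U)) ^ N ≤
        Real.exp (N * (2 * K * v + Lc * U)) := by
      rw [Real.exp_nat_mul (2 * K * v + Lc * U) N]
      exact pow_le_pow_left₀ (by positivity) h9 _
    rw [Real.exp_add, Real.exp_add, Real.exp_add (2 * (N * lam))]
    refine mul_le_mul_of_nonneg_right ?_ (Real.exp_pos _).le
    exact mul_le_mul h6 (mul_le_mul h7 h10 (by positivity) (Real.exp_pos _).le) (by positivity)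
      (Real.exp_pos _).le
  have hx4 : ((N.factorial : ℕ) : ℝ) * Real.exp kap ^ N ≤ Real.exp (N * (lam + kap)) := by
    rw [Real.exp_nat_mul (lam + kap) N, Real.exp_add, mul_pow, ← Real.exp_nat_mul lam N]
    exact mul_le_mul_of_nonneg_right hfac (by positivity)
  have hfin : (1 : ℝ) ≤ (Real.exp (N * 1 + (2 * (N * lam) + N * (2 * K * v + Lc * U)) +
      -(G * t)) * Real.exp (N * (lam + kap))) * (Real.exp (D * (N * (Lc * U))) *
      Real.exp (((D : ℝ) - 1) * (N * (lam + (kap + Lc * U))))) := by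
    refine har.trans ?_
    refine mul_le_mul (mul_le_mul (had.trans hx3) (hTdet.trans hx4) (norm_nonneg _)
      (Real.exp_pos _).le) (mul_le_mul hx1 hx2 (by positivity) (Real.exp_pos _).le)
      (by positivity) (by positivity)
  rw [← Real.exp_add, ← Real.exp_add, ← Real.exp_add] at hfin
  have hfin2 := Real.one_le_exp_iff.1 hfin
  refine hpn_num n D v K Lc t N G U ℓ hD hvn hv1 hG hU hℓ hN1 hK1 hL1 hKG hLG
    (by exact_mod_cast htt3) ?_
  rw [← hlamd, ← hkap]
  linarith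

end Pool.Helper99.SZ
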