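import Pool.Agent.Helper99.SZ.Stmts

set_option autoImplicit false

namespace Pool.Helper99.SZ

open NumberField

section odd

variable {K : Type} [Field K] [NumberField K] {L : Type} [Field L] [NumberField L]

/-- passage from `P` to `Q` -/
lemma odd_lift {P : Ideal (𝓞 K)} {Q : Ideal (𝓞 L)} (e : K →+* L)
    (h : ∀ x : 𝓞 K, RingOfIntegers.mapRingHom e x ∈ Q ↔ x ∈ P) (t : ℕ) (x : K)
    (hx : Dv P t x) : Dv Q t (e x) := by
  obtain ⟨a, b, hb, ha, hab⟩ := hx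
  refine ⟨RingOfIntegers.mapRingHom e a, RingOfIntegers.mapRingHom e b,
    fun hc => hb ((h b).mp hc), ?_, ?_⟩
  · have h1 : Ideal.map (RingOfIntegers.mapRingHom e) P ≤ Q := by
      rw [Ideal.map_le_iff_le_comap]
      intro y hy
      exact (h y).mpr hy
    have h2 : RingOfIntegers.mapRingHom e a ∈ Ideal.map (RingOfIntegers.mapRingHom e) (P ^ t) :=
      Ideal.mem_map_of_mem _ ha
    rw [Ideal.map_pow] at h2
    exact Ideal.pow_right_mono h1 t h2
  · have h3 := congrArg e hab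
    rw [map_mul] at h3
    exact h3

/-- `1` is not divisible by `Q` -/
lemma odd_one (hD : ST_DVB) {Q : Ideal (𝓞 L)} (hQ : Q.IsPrime) (hQ0 : Q ≠ ⊥) :
    ¬ Dv Q 1 (1 : L) := by
  intro h
  have h1 := (hD L Q hQ hQ0).2.2.2.2.2.2.2.2 1 1 (by simpa using h)
  rw [pow_one] at h1
  exact hQ.ne_top ((Ideal.eq_top_iff_one Q).mpr h1)

/-- descent of integrality -/
lemma odd_desc (hV : ST_VAL) (hD : ST_DVB) {P : Ideal (𝓞 K)} (hP : P.IsPrime) (hP0 : P ≠ ⊥)
    {Q : Ideal (𝓞 L)} (hQ : Q.IsPrime) (hQ0 : Q ≠ ⊥) (e : K →+* L)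
    (h : ∀ x : 𝓞 K, RingOfIntegers.mapRingHom e x ∈ Q ↔ x ∈ P) (x : K)
    (hx : Dv Q 0 (e x)) : Dv P 0 x := by
  obtain ⟨v, hv⟩ := hV K P hP hP0
  rcases eq_or_ne x 0 with rfl | hx0
  · exact ⟨0, 1, fun h1 => hP.ne_top ((Ideal.eq_top_iff_one P).mpr h1), by simp, by simp⟩
  by_contra hc
  set u : Kˣ := Units.mk0 x hx0 with hu
  have h1 : ¬ ((0 : ℕ) : ℤ) ≤ v u := by
    rw [← hv.dv 0 u]
    exact hc
  have h2 : v u⁻¹ = - v u := by
    have h3 := hv.mul u u⁻¹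
    have h4 := hv.mul 1 1
    rw [mul_one] at h4
    rw [mul_inv_cancel] at h3
    omega
  have h5 : Dv P 1 ((u⁻¹ : Kˣ) : K) := by
    rw [hv.dv 1 u⁻¹]
    push_cast at h1 ⊢
    omega
  have h6 := odd_lift e h 1 _ h5
  have h7 := (hD L Q hQ hQ0).2.2.2.2.1 0 1 _ _ hx h6
  rw [← map_mul] at h7
  have h8 : x * ((u⁻¹ : Kˣ) : K) = 1 := by
    rw [hu, Units.val_inv_eq_inv_val, Units.val_mk0]
    exact mul_inv_cancel₀ hx0
  rw [h8, map_one, zero_add] at h7
  exact odd_one hD hQ hQ0 h7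

/-- the powers of `β` -/
lemma odd_basis {β : K} {a b c : ℤ} {κ : 𝓞 K} (h : CF K β a b c κ) (u : K) :
    ∃ x y z : ℚ, u = (x : K) + (y : K) * β + (z : K) * β ^ 2 := by
  have hint : IsIntegral ℚ β := Algebra.IsIntegral.isIntegral β
  have hdvd : (minpoly ℚ β).natDegree ∣ 3 := by
    rw [← h.deg]
    exact minpoly.degree_dvd hint
  have h3 : (minpoly ℚ β).natDegree = 3 := by
    rcases (Nat.dvd_prime Nat.prime_three).mp hdvd with h1 | h1
    · exfalso
      rw [minpoly.natDegree_eq_one_iff] at h1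
      obtain ⟨q, hq⟩ := h1
      exact h.irr q hq.symm
    · exact h1
  have hli := linearIndependent_pow (K := ℚ) β
  have hli2 : LinearIndependent ℚ (fun i : Fin 3 => β ^ (i : ℕ)) := by
    rw [h3] at hli
    exact hli
  have hsp := hli2.span_eq_top_of_card_eq_finrank' (by rw [Fintype.card_fin, h.deg])
  have hu : u ∈ Submodule.span ℚ (Set.range (fun i : Fin 3 => β ^ (i : ℕ))) := by
    rw [hsp]
    exact Submodule.mem_top
  rw [Submodule.mem_span_range_iff_exists_fun] at hu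
  obtain ⟨w, hw⟩ := hu
  refine ⟨w 0, w 1, w 2, ?_⟩
  rw [← hw, Fin.sum_univ_three]
  simp only [Algebra.smul_def, eq_ratCast, Fin.val_zero, pow_zero, mul_one, Fin.val_one,
    pow_one, Fin.val_two]

/-- `κ` is exactly divisible by `P ^ v` -/
lemma odd_kap (hCU : ST_CU1) (hD : ST_DVB) {β : K} {a b c : ℤ} {κ : 𝓞 K} {m : ℕ}
    {p : Fin m → ℕ} {P : Fin m → Ideal (𝓞 K)} {𝔞 : Ideal (𝓞 K)}
    (h : CD K β a b c κ m p P 𝔞) (j : Fin m) (v : Kˣ → ℤ) (hv : IsVal (P j) v) (k : Kˣ)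
    (hk : (k : K) = (κ : K)) : v k = ((dis a b c).natAbs.factorization (p j) : ℤ) := by
  obtain ⟨-, -, hN, hdis, hκ, -⟩ := hCU.2 K β a b c κ h.cf
  set n := (dis a b c).natAbs.factorization (p j) with hn
  have h1 : Dv (P j) n (k : K) := by
    refine ⟨κ, 1, fun h1 => (h.pr j).1.ne_top ((Ideal.eq_top_iff_one _).mpr h1), ?_, ?_⟩
    · have h2 : κ ∈ Ideal.span {κ} := Ideal.mem_span_singleton_self κ
      rw [h.fac] at h2
      have h3 : (∏ j, P j ^ ((dis a b c).natAbs.factorization (p j))) ≤ P j ^ n := by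
        apply Ideal.le_of_dvd
        exact Finset.dvd_prod_of_mem (fun j => P j ^ ((dis a b c).natAbs.factorization (p j)))
          (Finset.mem_univ j)
      exact h3 (Ideal.mul_le_right h2)
    · rw [hk]
      simp
  have h2 : ¬ Dv (P j) (n + 1) (k : K) := by
    intro hc
    rw [hk] at hc
    have h3 := (hD K (P j) (h.pr j).1 (h.pr j).2).2.2.2.2.2.2.2.2 (n + 1) κ hc
    have h4 : Ideal.span {κ} ≤ P j ^ (n + 1) := by
      rw [Ideal.span_singleton_le_iff_mem]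
      exact h3
    have h5 := Ideal.absNorm_dvd_absNorm_of_le h4
    rw [map_pow, h.nm j, Ideal.absNorm_span_singleton] at h5
    have h6 : (Algebra.norm ℤ κ).natAbs = (dis a b c).natAbs := by
      have := congrArg Int.natAbs hN
      rwa [Int.natAbs_abs, Int.natAbs_abs] at this
    rw [h6] at h5
    have h7 := (h.pp j).pow_dvd_iff_le_factorization (by
      rw [Int.natAbs_ne_zero]; exact hdis : (dis a b c).natAbs ≠ 0) |>.mp h5
    omega
  rw [hv.dv] at h1 h2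
  push_cast at h1 h2
  omega

/-- rational numbers are fixed by embeddings -/
lemma odd_Q (e : K →+* L) (q : ℚ) : e (q : K) = (q : L) := map_ratCast e q

lemma odd_Dzero {Q : Ideal (𝓞 L)} (hQ : Q.IsPrime) (t : ℕ) : Dv Q t (0 : L) :=
  ⟨0, 1, fun h1 => hQ.ne_top ((Ideal.eq_top_iff_one Q).mpr h1), by simp, by simp⟩

/-- a unit at `Q` comes from a unit at `P` -/
lemma odd_unit (hV : ST_VAL) (hD : ST_DVB) {P : Ideal (𝓞 K)} (hP : P.IsPrime) (hP0 : P ≠ ⊥)
    {Q : Ideal (𝓞 L)} (hQ : Q.IsPrime) (hQ0 : Q ≠ ⊥) (e : K →+* L)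
    (h : ∀ x : 𝓞 K, RingOfIntegers.mapRingHom e x ∈ Q ↔ x ∈ P) (v : Kˣ → ℤ) (hv : IsVal P v)
    (u : Kˣ) (h1 : Dv Q 0 (e (u : K))) (h2 : Dv Q 0 (e (u : K))⁻¹) : v u = 0 := by
  have h3 := odd_desc hV hD hP hP0 hQ hQ0 e h _ h1
  have h4 : Dv P 0 ((u⁻¹ : Kˣ) : K) := by
    apply odd_desc hV hD hP hP0 hQ hQ0 e h
    rw [Units.val_inv_eq_inv_val, map_inv₀]
    exact h2
  rw [hv.dv] at h3 h4
  have h5 := hv.mul u u⁻¹
  have h6 := hv.mul 1 1
  rw [mul_one] at h6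
  rw [mul_inv_cancel] at h5
  push_cast at h3 h4
  omega

end odd

theorem st_ODD (hCU : ST_CU1) (hV : ST_VAL) (hD : ST_DVB) : ST_ODD := by
  intro K _ _ β a b c κ m p P 𝔞 h L _ _ e he j0 Q hQ hodd u x hux
  obtain ⟨-, -, hN, hdis, hκ, hemb⟩ := hCU.2 K β a b c κ h.cf
  obtain ⟨hne, hsum, hsq, -⟩ := hemb L e he
  obtain ⟨hpr, hbot⟩ := h.pr j0
  have hDQ := hD L Q hQ.pr hQ.bot
  obtain ⟨vP, hvP⟩ := hV K (P j0) hpr hbot
  obtain ⟨vQ, hvQ⟩ := hV L Q hQ.pr hQ.bot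
  have hu1 := hQ.un u x hux 1 (by decide)
  have hu2 := hQ.un u x hux 2 (by decide)
  -- the difference
  have hδ : Dv Q 1 (e 2 (u : K) - e 1 (u : K)) := by
    obtain ⟨q0, q1, q2, hq⟩ := odd_basis h.cf (u : K)
    set h' : K := (q1 : K) - (q2 : K) * a - (q2 : K) * β with hh'
    have hdiff : e 2 (u : K) - e 1 (u : K) = (e 2 β - e 1 β) * e 0 h' := by
      rw [hq, hh']
      simp only [map_add, map_sub, map_mul, map_pow, odd_Q, map_intCast]
      have h1 : e 0 β = -a - e 1 β - e 2 β := by rw [← hsum]; ring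
      rw [h1]
      ring
    rcases eq_or_ne (e 2 (u : K) - e 1 (u : K)) 0 with h0 | h0
    · rw [h0]
      exact odd_Dzero hQ.pr 1
    set δ : Lˣ := Units.mk0 _ h0 with hδ
    have hδv : (δ : L) = e 2 (u : K) - e 1 (u : K) := rfl
    by_contra hcon
    rw [← hδv, hvQ.dv] at hcon
    have hge : Dv Q 0 (δ : L) := by
      rw [hδv, sub_eq_add_neg]
      exact hDQ.2.2.1 0 _ _ hu2.1 (hDQ.2.2.2.1 0 _ hu1.1)
    rw [hvQ.dv] at hge
    have hv0 : vQ δ = 0 := by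
      push_cast at hcon hge
      omega
    have hh0 : h' ≠ 0 := by
      intro h1
      apply h0
      rw [hdiff, h1, map_zero, mul_zero]
    have hκ0 : (κ : K) ≠ 0 := by
      intro h1
      exact hκ (by exact_mod_cast h1)
    set k : Kˣ := Units.mk0 (κ : K) hκ0 with hk
    set g : Kˣ := Units.mk0 h' hh0 with hg
    have hw : e 0 ((k * (g * g) : Kˣ) : K) = ((δ * δ : Lˣ) : L) := by
      have h1 := hsq 0 2 1 (by decide) (by decide) (by decide)
      rw [Units.val_mul, Units.val_mul, Units.val_mul, hδv, hdiff]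
      show e 0 ((κ : K) * (h' * h')) = _
      rw [map_mul, map_mul, ← h1]
      ring
    have hδδ : vQ (δ * δ) = 0 := by rw [hvQ.mul, hv0, add_zero]
    have hv1 : vQ 1 = 0 := by
      have h6 := hvQ.mul 1 1
      rw [mul_one] at h6
      omega
    have hδi : vQ (δ * δ)⁻¹ = 0 := by
      have h5 := hvQ.mul (δ * δ) (δ * δ)⁻¹
      rw [mul_inv_cancel] at h5
      omega
    have hz := odd_unit hV hD hpr hbot hQ.pr hQ.bot (e 0) hQ.ovr vP hvP (k * (g * g))
      (by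
        rw [hw, hvQ.dv, hδδ]
        simp)
      (by
        rw [hw, ← Units.val_inv_eq_inv_val, hvQ.dv, hδi]
        simp)
    rw [hvP.mul, hvP.mul, odd_kap hCU hD h j0 vP hvP k rfl] at hz
    obtain ⟨r, hr⟩ := hodd
    rw [hr] at hz
    push_cast at hz
    omega
  have h1 := hDQ.2.2.2.2.1 1 0 _ _ hδ hu1.2
  have h2 : e 1 (u : K) ≠ 0 := by
    rw [Ne, map_eq_zero]
    exact u.ne_zero
  have h3 : (e 2 (u : K) - e 1 (u : K)) * (e 1 (u : K))⁻¹ = e 2 (u : K) / e 1 (u : K) - 1 := by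
    field_simp
  rw [h3] at h1
  exact h1

end Pool.Helper99.SZ
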