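import Pool.Agent.Helper99.SZ.Stmts4

/-! # The discriminant of a quadratic field (module QDI of MP_bde085_nt) -/

set_option autoImplicit false

namespace Pool.Helper99.SZ

open NumberField

/-- squarefree part and square part of a natural number -/
theorem qdi_fact (n : ℕ) (hn : n ≠ 0) :
    (∏ q ∈ n.primeFactors, q ^ (n.factorization q % 2)) *
      (∏ q ∈ n.primeFactors, q ^ (n.factorization q / 2)) ^ 2 = n := by
  rw [← Finset.prod_pow, ← Finset.prod_mul_distrib]
  have h1 : ∀ q ∈ n.primeFactors, q ^ (n.factorization q % 2) *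
      (q ^ (n.factorization q / 2)) ^ 2 = q ^ (n.factorization q) := by
    intro q _
    rw [← pow_mul, ← pow_add]
    congr 1
    omega
  rw [Finset.prod_congr rfl h1]
  exact Nat.prod_factorization_pow_eq_self hn

/-- a square root of an integer bounds the discriminant -/
theorem qdi_main (K : Type) [Field K] [NumberField K] (h2 : Module.finrank ℚ K = 2) (γ : K)
    (M : ℤ) (hγ : γ ^ 2 = (M : K)) (hM0 : M ≠ 0) (hq : ∀ q : ℚ, γ ≠ algebraMap ℚ K q) :
    |NumberField.discr K| ≤ 4 * |M| := by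
  have hint : IsIntegral ℤ γ := by
    refine ⟨Polynomial.X ^ 2 - Polynomial.C M, ?_, ?_⟩
    · monicity!
    · simp only [Polynomial.eval₂_sub, Polynomial.eval₂_pow, Polynomial.eval₂_X,
        Polynomial.eval₂_C]
      rw [eq_intCast, hγ, sub_self]
  have hdeg : (minpoly ℚ γ).natDegree = 2 := by
    have h1 : (minpoly ℚ γ).natDegree ∣ 2 := by
      rw [← h2]
      exact minpoly.degree_dvd (Algebra.IsIntegral.isIntegral γ)
    rcases (Nat.dvd_prime Nat.prime_two).1 h1 with h3 | h3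
    · obtain ⟨q, hq'⟩ := minpoly.natDegree_eq_one_iff.1 h3
      exact absurd hq'.symm (hq q)
    · exact h3
  have hli := linearIndependent_pow (K := ℚ) γ
  rw [hdeg] at hli
  have hcard : Fintype.card (Fin 2) = Module.finrank ℚ K := by rw [h2]; rfl
  let B : Module.Basis (Fin 2) ℚ K := basisOfLinearIndependentOfCardEqFinrank hli hcard
  have hB : ∀ i, B i = γ ^ (i : ℕ) := fun i => by
    simp [B]
  have hγ2 : γ ^ 2 = (M : ℚ) • (1 : K) := by
    rw [Algebra.smul_def, map_intCast, mul_one, hγ]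
  let A : Matrix (Fin 2) (Fin 2) ℚ := !![0, (M : ℚ); 1, 0]
  have hA : Algebra.leftMulMatrix B γ = A := by
    refine Matrix.ext fun i j => ?_
    rw [Algebra.leftMulMatrix_eq_repr_mul]
    have h0 : γ * B 0 = B 1 := by rw [hB, hB]; simp
    have h1 : γ * B 1 = (M : ℚ) • B 0 := by
      rw [hB, hB]
      have : γ * γ ^ ((1 : Fin 2) : ℕ) = γ ^ 2 := by
        show γ * γ ^ 1 = γ ^ 2
        ring
      rw [this, hγ2]
      simp
    fin_cases j
    · show (B.repr (γ * B 0)) i = A i 0
      rw [h0]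
      fin_cases i <;> simp [A]
    · show (B.repr (γ * B 1)) i = A i 1
      rw [h1]
      fin_cases i <;> simp [A]
  have htr : ∀ n : ℕ, Algebra.trace ℚ K (γ ^ n) = Matrix.trace (A ^ n) := by
    intro n
    rw [Algebra.trace_eq_matrix_trace B, map_pow, hA]
  have t0 : Algebra.trace ℚ K (γ ^ 0) = 2 := by
    rw [htr]; simp
  have t1 : Algebra.trace ℚ K (γ ^ 1) = 0 := by
    rw [htr]; simp [A, Matrix.trace_fin_two]
  have t2 : Algebra.trace ℚ K (γ ^ 2) = 2 * M := by
    rw [htr]; simp [A, Matrix.trace_fin_two, pow_succ]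
    ring
  let b : 𝓞 K := ⟨γ, hint⟩
  have hb : ∀ n : ℕ, ((b ^ n : 𝓞 K) : K) = γ ^ n := fun n => by
    rfl
  have hZ : ∀ n : ℕ, ((Algebra.trace ℤ (𝓞 K) (b ^ n) : ℤ) : ℚ) = Algebra.trace ℚ K (γ ^ n) := by
    intro n
    rw [Algebra.coe_trace_int, hb]
  have u0 : Algebra.trace ℤ (𝓞 K) (b ^ 0) = 2 := by
    have := hZ 0; rw [t0] at this; exact_mod_cast this
  have u1 : Algebra.trace ℤ (𝓞 K) (b ^ 1) = 0 := by
    have := hZ 1; rw [t1] at this; exact_mod_cast this
  have u2 : Algebra.trace ℤ (𝓞 K) (b ^ 2) = 2 * M := by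
    have := hZ 2; rw [t2] at this; exact_mod_cast this
  let v : Fin 2 → 𝓞 K := fun i => b ^ (i : ℕ)
  have hdv : Algebra.discr ℤ v = 4 * M := by
    rw [Algebra.discr_def]
    have e : ∀ i j : Fin 2, Algebra.traceMatrix ℤ v i j =
        Algebra.trace ℤ (𝓞 K) (b ^ ((i : ℕ) + j)) := by
      intro i j
      rw [Algebra.traceMatrix_apply, Algebra.traceForm_apply, pow_add]
    rw [Matrix.det_fin_two]
    simp only [e]
    show Algebra.trace ℤ (𝓞 K) (b ^ 0) * Algebra.trace ℤ (𝓞 K) (b ^ 2) -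
      Algebra.trace ℤ (𝓞 K) (b ^ 1) * Algebra.trace ℤ (𝓞 K) (b ^ 1) = 4 * M
    rw [u0, u1, u2]
    ring
  have hcard2 : Fintype.card (Module.Free.ChooseBasisIndex ℤ (𝓞 K)) = 2 := by
    rw [← Module.finrank_eq_card_chooseBasisIndex, RingOfIntegers.rank, h2]
  let e : Module.Free.ChooseBasisIndex ℤ (𝓞 K) ≃ Fin 2 := Fintype.equivFinOfCardEq hcard2
  let b' : Module.Basis (Fin 2) ℤ (𝓞 K) := (RingOfIntegers.basis K).reindex e
  let P : Matrix (Fin 2) (Fin 2) ℤ := Matrix.of fun i j => b'.repr (v i) j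
  have hP : v = Matrix.mulVec (P.map (algebraMap ℤ (𝓞 K))) b' := by
    funext i
    have h1 := b'.sum_repr (v i)
    rw [← h1]
    simp only [Matrix.mulVec, dotProduct, Matrix.map_apply, P, Matrix.of_apply]
    refine Finset.sum_congr rfl fun j _ => ?_
    rw [Algebra.smul_def]
  have hdP : Algebra.discr ℤ v = P.det ^ 2 * NumberField.discr K := by
    rw [← NumberField.discr_eq_discr K b', ← Algebra.discr_of_matrix_mulVec, ← hP]
  rw [hdv] at hdP
  have hdet : P.det ^ 2 ≠ 0 := by
    intro h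
    rw [h, zero_mul] at hdP
    omega
  have h1 : 1 ≤ P.det ^ 2 := by
    have := sq_nonneg P.det
    omega
  have h4 : 4 * |M| = P.det ^ 2 * |NumberField.discr K| := by
    have h5 := congrArg abs hdP
    rw [abs_mul, abs_mul, abs_of_nonneg (sq_nonneg P.det)] at h5
    simpa using h5
  rw [h4]
  have h6 := abs_nonneg (NumberField.discr K)
  nlinarith

theorem st_QDI : ST_QDI := by
  intro K _ _ τ β a b d hF hd
  have hsq : ((β : K) - τ (β : K)) ^ 2 = (d : K) := by
    rw [hd]
    push_cast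
    have h1 := hF.add
    have h2 := hF.mul
    have h3 : ((β : K) - τ (β : K)) ^ 2 = ((β : K) + τ (β : K)) ^ 2 - 4 * ((β : K) * τ (β : K)) := by
      ring
    rw [h3, h1, h2]
    ring
  have hne : (β : K) - τ (β : K) ≠ 0 := fun h => hF.ne (sub_eq_zero.1 h).symm
  have hd0 : d ≠ 0 := by
    rintro rfl
    rw [Int.cast_zero] at hsq
    exact hne (pow_eq_zero_iff (two_ne_zero) |>.1 hsq)
  set s : ℕ := ∏ q ∈ d.natAbs.primeFactors, q ^ (d.natAbs.factorization q % 2) with hs
  set f : ℕ := ∏ q ∈ d.natAbs.primeFactors, q ^ (d.natAbs.factorization q / 2) with hf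
  have hfac : s * f ^ 2 = d.natAbs := qdi_fact d.natAbs (Int.natAbs_ne_zero.2 hd0)
  have hf0 : f ≠ 0 := by
    intro h
    rw [h] at hfac
    exact Int.natAbs_ne_zero.2 hd0 (by rw [← hfac]; simp)
  have hs0 : s ≠ 0 := by
    intro h
    rw [h] at hfac
    exact Int.natAbs_ne_zero.2 hd0 (by rw [← hfac]; simp)
  have hfK : (f : K) ≠ 0 := by exact_mod_cast hf0
  set M : ℤ := d.sign * s with hM
  have hdM : d = M * (f : ℤ) ^ 2 := by
    have h1 := Int.sign_mul_natAbs d
    rw [hM, mul_assoc]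
    have h2 : ((s : ℤ) * (f : ℤ) ^ 2) = ((d.natAbs : ℕ) : ℤ) := by exact_mod_cast hfac
    rw [h2, h1]
  have hM0 : M ≠ 0 := by
    rintro h
    rw [h, zero_mul] at hdM
    exact hd0 hdM
  have hMabs : |M| = (s : ℤ) := by
    rw [hM, abs_mul]
    have h1 : |d.sign| = 1 := by
      rcases lt_trichotomy d 0 with h | h | h
      · rw [Int.sign_eq_neg_one_of_neg h]; simp
      · exact absurd h hd0
      · rw [Int.sign_eq_one_of_pos h]; simp
    rw [h1, one_mul]
    simp
  have hγ : (((β : K) - τ (β : K)) / f) ^ 2 = (M : K) := by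
    rw [div_pow, hsq, hdM]
    push_cast
    field_simp
  have hq : ∀ q : ℚ, ((β : K) - τ (β : K)) / f ≠ algebraMap ℚ K q := by
    intro q h
    have h1 : τ (((β : K) - τ (β : K)) / f) = ((β : K) - τ (β : K)) / f := by
      rw [h, eq_ratCast]
      exact map_ratCast τ q
    rw [map_div₀, map_sub, hF.inv, map_natCast] at h1
    have h2 : (τ (β : K) - (β : K)) = (β : K) - τ (β : K) := by
      field_simp at h1
      exact h1
    apply hne
    have h3 : 2 * ((β : K) - τ (β : K)) = 0 := by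
      linear_combination -h2
    exact (mul_eq_zero.1 h3).resolve_left two_ne_zero
  have key := qdi_main K hF.deg _ M hγ hM0 hq
  rw [hMabs] at key
  exact_mod_cast key

end Pool.Helper99.SZ
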